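import Mathlib
import Pool.Agent.Y1.KN.Stm8
import Pool.Agent.Y1.KN.Proj

/-!
# Minimal spaces with a reflection (P_refl)
-/

set_option linter.unusedSectionVars false
set_option linter.unusedVariables false

namespace Pool.Agent.Y839.KN

open Finset Module Pool.Agent.TH170.MF Pool.Agent.TH170.QC Pool.Agent.TH170.QE Pool.Agent.Y1.KN

/-- If `c t ^ k` is an integer for all `k`, then `t` is an integer. -/
theorem den_one {c t : ℚ} (hc : c ≠ 0) (h : ∀ k : ℕ, ∃ z : ℤ, (z : ℚ) = c * t ^ k) :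
    t.den = 1 := by
  obtain ⟨z₀, h0⟩ := h 0
  rw [pow_zero, mul_one] at h0
  have hz0 : z₀ ≠ 0 := by
    rintro rfl
    apply hc
    rw [← h0]
    rfl
  obtain ⟨z, hz⟩ := h z₀.natAbs
  rw [← h0] at hz
  set k := z₀.natAbs with hk
  have h1 : z * (t.den : ℤ) ^ k = z₀ * t.num ^ k := by
    have h2 : (t.den : ℚ) ≠ 0 := by exact_mod_cast t.den_ne_zero
    have h3 : t * t.den = t.num := Rat.mul_den_eq_num t
    have h4 : ((z * (t.den : ℤ) ^ k : ℤ) : ℚ) = ((z₀ * t.num ^ k : ℤ) : ℚ) := by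
      push_cast
      rw [hz, mul_assoc, ← mul_pow, h3]
    exact_mod_cast h4
  have h5 : (t.den : ℤ) ^ k ∣ z₀ := by
    have h6 : (t.den : ℤ) ^ k ∣ z₀ * t.num ^ k := ⟨z, by rw [← h1, mul_comm]⟩
    refine IsCoprime.dvd_of_dvd_mul_right ?_ h6
    have h7 : IsCoprime (t.den : ℤ) t.num := by
      rw [isCoprime_comm, Int.isCoprime_iff_nat_coprime]
      exact t.reduced
    exact h7.pow
  have h8 : t.den ^ k ∣ k := by
    have h9 := Int.natAbs_dvd_natAbs.2 h5
    rw [Int.natAbs_pow, Int.natAbs_natCast] at h9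
    exact h9
  have hkpos : 0 < k := Int.natAbs_pos.2 hz0
  have h10 := Nat.le_of_dvd hkpos h8
  by_contra hne
  have h11 : 2 ≤ t.den := by
    have := t.den_pos
    omega
  have h12 : 2 ^ k ≤ t.den ^ k := Nat.pow_le_pow_left h11 k
  have h13 : k < 2 ^ k := Nat.lt_two_pow_self
  omega

section

variable {G X : Type} [Group G] [Fintype G] [MulAction G X] [Fintype X]

/-- The data of a reflection. -/
structure RD (s : G) (S : Submodule ℚ (X → ℚ)) (α : X → ℚ) : Prop where
  inv : Invariant G S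
  ss : s * s = 1
  mem : α ∈ S
  ne : α ≠ 0
  odd : tr s α = -α
  line : ∀ u ∈ S, tr s u = -u → ∃ r : ℚ, u = r • α
  faith : Faith G S
  span : ∀ S', Invariant G S' → S' ≤ S → S' = ⊥ ∨ S' = S

/-- The normalized Gram function of the root. -/
noncomputable def Gm (α : X → ℚ) (γ : G) : ℚ := dot X (tr γ α) α / dot X α α

theorem dot_nonneg (u : X → ℚ) : 0 ≤ dot X u u := by
  rw [dot_apply]
  exact sum_nonneg fun x _ => mul_self_nonneg _

theorem tr_conj (s γ : G) (u : X → ℚ) : tr (γ⁻¹ * s * γ) u = tr γ (tr s (tr γ⁻¹ u)) := by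
  rw [tr_tr, tr_tr, ← mul_assoc]

theorem faith_eq {S : Submodule ℚ (X → ℚ)} (h : Faith G S) {a b : G}
    (hab : ∀ u ∈ S, tr a u = tr b u) (hS : Invariant G S) : a = b := by
  have h1 : a * b⁻¹ = 1 := by
    apply h
    intro u hu x
    have h2 := congrFun (hab u hu) (b⁻¹ • x)
    rw [tr_apply, tr_apply, smul_inv_smul, smul_smul] at h2
    exact h2
  exact mul_inv_eq_one.1 h1

variable {s : G} {S : Submodule ℚ (X → ℚ)} {α : X → ℚ} (D : RD s S α)

include D

theorem N_pos : 0 < dot X α α :=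
  lt_of_le_of_ne (dot_nonneg α) fun h => D.ne (dot_self h.symm)

theorem N_ne : dot X α α ≠ 0 := (N_pos D).ne'

theorem s_inv : s⁻¹ = s := inv_eq_of_mul_eq_one_left D.ss

theorem tr_s {u : X → ℚ} (hu : u ∈ S) :
    tr s u = u - (2 * dot X u α / dot X α α) • α := by
  have h1 : tr s (u - tr s u) = -(u - tr s u) := by
    rw [map_sub, tr_tr, D.ss, tr_one]
    abel
  obtain ⟨r, hr⟩ := D.line (u - tr s u) (S.sub_mem hu (tr_mem D.inv s hu)) h1
  have h2 : dot X (u - tr s u) α = 2 * dot X u α := by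
    rw [map_sub, LinearMap.sub_apply, dot_tr, s_inv D, D.odd, map_neg]
    ring
  rw [hr, map_smul, LinearMap.smul_apply, smul_eq_mul] at h2
  have h3 : r = 2 * dot X u α / dot X α α := by
    rw [eq_div_iff (N_ne D), h2]
  rw [← h3, ← hr]
  abel

theorem dot_tr_tr (γ : G) : dot X (tr γ α) (tr γ α) = dot X α α := by
  rw [dot_tr, tr_inv_tr]

theorem tr_s' (γ : G) {u : X → ℚ} (hu : u ∈ S) :
    tr (γ⁻¹ * s * γ) u = u - (2 * dot X u (tr γ α) / dot X α α) • tr γ α := by
  rw [tr_conj, tr_s D (tr_mem D.inv γ⁻¹ hu), map_sub, tr_tr_inv, map_smul, dot_tr, inv_inv]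

theorem dot_Gm (γ : G) : dot X (tr γ α) α = Gm α γ * dot X α α := by
  rw [Gm, div_mul_cancel₀ _ (N_ne D)]

theorem dot_Gm' (γ : G) : dot X α (tr γ α) = Gm α γ * dot X α α := by
  rw [dot_comm, dot_Gm D]

/-- `s β = β - 2 Γ α` -/
theorem s_beta (γ : G) : tr s (tr γ α) = tr γ α - (2 * Gm α γ) • α := by
  rw [tr_s D (tr_mem D.inv γ D.mem), dot_Gm D, ← mul_assoc, mul_div_cancel_right₀ _ (N_ne D)]

/-- `s' α = α - 2 Γ β` -/
theorem s'_alpha (γ : G) : tr (γ⁻¹ * s * γ) α = α - (2 * Gm α γ) • tr γ α := by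
  rw [tr_s' D γ D.mem, dot_Gm' D, ← mul_assoc, mul_div_cancel_right₀ _ (N_ne D)]

theorem dist (γ : G) : dot X (tr γ α - Gm α γ • α) (tr γ α - Gm α γ • α) =
    (1 - Gm α γ ^ 2) * dot X α α := by
  simp only [map_sub, map_smul, LinearMap.sub_apply, LinearMap.smul_apply, smul_eq_mul]
  rw [dot_tr_tr D, dot_Gm D, dot_Gm' D]
  ring

theorem Gm_sq_le (γ : G) : Gm α γ ^ 2 ≤ 1 := by
  have h1 := dist D γ
  have h2 := dot_nonneg (tr γ α - Gm α γ • α)
  rw [h1] at h2
  have h3 := nonneg_of_mul_nonneg_left h2 (N_pos D)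
  linarith

theorem eq_of_sq {γ : G} (h : Gm α γ ^ 2 = 1) : tr γ α = Gm α γ • α := by
  have h1 := dist D γ
  rw [h, sub_self, zero_mul] at h1
  exact sub_eq_zero.1 (dot_self h1)

/-- The number `4 Γ ^ 2` is an integer. -/
theorem four_int (γ : G) : ((2 * Gm α γ) ^ 2).den = 1 := by
  obtain ⟨m, hm, w, hw, hwα⟩ := exists_multiple D.mem
  obtain ⟨x₀, hx₀⟩ := Function.ne_iff.1 D.ne
  have key : ∀ k : ℕ, ∀ x, ∃ z : ℤ, (z : ℚ) = ((m : ℚ) * α x) * ((2 * Gm α γ) ^ 2) ^ k := by
    intro k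
    induction k with
    | zero =>
      intro x
      refine ⟨w x, ?_⟩
      rw [pow_zero, mul_one]
      exact congrFun hwα x
    | succ k ih =>
      choose z hz using ih
      intro x
      have hT : α - tr (γ⁻¹ * s * γ) α - tr s (α - tr (γ⁻¹ * s * γ) α) =
          ((2 * Gm α γ) ^ 2) • α := by
        have h1 : α - tr (γ⁻¹ * s * γ) α = (2 * Gm α γ) • tr γ α := by
          rw [s'_alpha D]
          abel
        rw [h1, map_smul, s_beta D, smul_sub, smul_smul]
        rw [sub_sub_cancel, ← sq]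
      have h2 := congrFun hT x
      simp only [Pi.sub_apply, tr_apply, Pi.smul_apply, smul_eq_mul, map_sub] at h2
      refine ⟨z x - z ((γ⁻¹ * s * γ) • x) - (z (s • x) - z ((γ⁻¹ * s * γ) • s • x)), ?_⟩
      push_cast
      rw [hz, hz, hz, hz, pow_succ ((2 * Gm α γ) ^ 2) k]
      have h3 : (m : ℚ) * α x * (((2 * Gm α γ) ^ 2) ^ k * (2 * Gm α γ) ^ 2) =
          (m : ℚ) * ((2 * Gm α γ) ^ 2) ^ k * ((2 * Gm α γ) ^ 2 * α x) := by ring
      rw [h3, ← h2]
      ring
  refine den_one (c := (m : ℚ) * α x₀) ?_ fun k => key k x₀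
  exact mul_ne_zero (by exact_mod_cast hm) hx₀

theorem Gm_cases (γ : G) : Gm α γ = 0 ∨ Gm α γ ^ 2 = 1 ∨ (2 * Gm α γ) = 1 ∨ (2 * Gm α γ) = -1 := by
  have h1 := four_int D γ
  rw [Rat.den_pow] at h1
  have h2 : (2 * Gm α γ).den = 1 := by
    have := Nat.pow_eq_one.1 h1
    omega
  have h3 : ((2 * Gm α γ).num : ℚ) = 2 * Gm α γ := Rat.coe_int_num_of_den_eq_one h2
  set n := (2 * Gm α γ).num with hn
  have h4 := Gm_sq_le D γ
  have h5 : ((n : ℚ)) ^ 2 ≤ 4 := by
    rw [h3]
    nlinarith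
  have h6 : n ^ 2 ≤ 4 := by exact_mod_cast h5
  have h7 : n ≤ 2 := by nlinarith
  have h8 : -2 ≤ n := by nlinarith
  have h9 : Gm α γ = (n : ℚ) / 2 := by rw [h3]; ring
  interval_cases n
  · right; left; rw [h9]; norm_num
  · right; right; right; rw [h9]; norm_num
  · left; rw [h9]; norm_num
  · right; right; left; rw [h9]; norm_num
  · right; left; rw [h9]; norm_num

theorem one_iff (γ : G) : Gm α γ ^ 2 = 1 ↔ γ⁻¹ * s * γ = s := by
  constructor
  · intro h
    refine faith_eq D.faith (fun u hu => ?_) D.inv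
    rw [tr_s' D γ hu, tr_s D hu, eq_of_sq D h, map_smul, smul_eq_mul, smul_smul]
    congr 2
    rw [div_mul_eq_mul_div]
    congr 1
    linear_combination (2 * dot X u α) * h
  · intro h
    have h1 := s'_alpha D γ
    rw [h, D.odd] at h1
    have h2 : (2 : ℚ) • α = (2 * Gm α γ) • tr γ α := by
      rw [two_smul]
      have h3 : (2 * Gm α γ) • tr γ α = α - (-α) := by
        rw [h1]
        abel
      rw [h3]
      abel
    have h3 := congrArg (fun v => dot X v α) h2
    simp only [map_smul, LinearMap.smul_apply, smul_eq_mul, dot_Gm D] at h3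
    have h4 : (Gm α γ ^ 2 - 1) * dot X α α = 0 := by linear_combination (-1 / 2 : ℚ) * h3
    have h5 := (mul_eq_zero.1 h4).resolve_right (N_ne D)
    linarith

theorem comm_iff (γ : G) : s * (γ⁻¹ * s * γ) = (γ⁻¹ * s * γ) * s ↔
    (Gm α γ = 0 ∨ Gm α γ ^ 2 = 1) := by
  constructor
  · intro h
    have h1 : tr (γ⁻¹ * s * γ) (tr s α) = tr s (tr (γ⁻¹ * s * γ) α) := by
      rw [tr_tr, tr_tr, h]
    rw [D.odd, map_neg, s'_alpha D, map_sub, D.odd, map_smul, s_beta D, smul_sub, smul_smul] at h1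
    have h2 : (4 * Gm α γ) • tr γ α = (4 * Gm α γ ^ 2) • α := by
      have e1 : (4 * Gm α γ) • tr γ α = (2 * Gm α γ) • tr γ α + (2 * Gm α γ) • tr γ α := by
        rw [← add_smul]
        congr 1
        ring
      have e2 : (4 * Gm α γ ^ 2) • α = (2 * Gm α γ * (2 * Gm α γ)) • α := by
        congr 1
        ring
      rw [e1, e2]
      have h4 : -(α - (2 * Gm α γ) • tr γ α) =
          -α - ((2 * Gm α γ) • tr γ α - (2 * Gm α γ * (2 * Gm α γ)) • α) := h1
      have h5 : (2 * Gm α γ * (2 * Gm α γ)) • α =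
          -(α - (2 * Gm α γ) • tr γ α) + α + (2 * Gm α γ) • tr γ α := by
        rw [h4]
        abel
      rw [h5]
      abel
    have h3 := congrArg (fun v => dot X v α) h2
    simp only [map_smul, LinearMap.smul_apply, smul_eq_mul, dot_Gm D] at h3
    have h6 := congrArg (fun v => dot X v (tr γ α)) h2
    simp only [map_smul, LinearMap.smul_apply, smul_eq_mul, dot_Gm' D, dot_tr_tr D] at h6
    have h4 : Gm α γ * (Gm α γ ^ 2 - 1) * dot X α α = 0 := by
      linear_combination (-1 / 4 : ℚ) * h6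
    have h5 := (mul_eq_zero.1 h4).resolve_right (N_ne D)
    rcases mul_eq_zero.1 h5 with h7 | h7
    · exact Or.inl h7
    · exact Or.inr (by linarith)
  · rintro (h | h)
    · refine faith_eq D.faith (fun u hu => ?_) D.inv
      rw [← tr_tr (γ⁻¹ * s * γ) s u, ← tr_tr s (γ⁻¹ * s * γ) u]
      have e1 : tr (γ⁻¹ * s * γ) (tr s u) = u - (2 * dot X u α / dot X α α) • α -
          (2 * dot X u (tr γ α) / dot X α α) • tr γ α := by
        rw [tr_s D hu, map_sub, map_smul, s'_alpha D, h, tr_s' D γ hu]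
        simp only [mul_zero, zero_smul, sub_zero]
        abel
      have e2 : tr s (tr (γ⁻¹ * s * γ) u) = u - (2 * dot X u α / dot X α α) • α -
          (2 * dot X u (tr γ α) / dot X α α) • tr γ α := by
        rw [tr_s' D γ hu, map_sub, map_smul, s_beta D, h, tr_s D hu]
        simp only [mul_zero, zero_smul, sub_zero]
      rw [e1, e2]
    · rw [(one_iff D γ).1 h]

/-- An element that maps the root to a multiple commutes with the reflection. -/
theorem comm_of_smul {δ : G} {r : ℚ} (hr : r ^ 2 = 1) (h : tr δ α = r • α) : δ * s = s * δ := by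
  have h1 : Gm α δ = r := by
    rw [Gm, h, map_smul, LinearMap.smul_apply, smul_eq_mul, mul_div_cancel_right₀ _ (N_ne D)]
  have h2 := (one_iff D δ).1 (by rw [h1, hr])
  have h3 : δ * (δ⁻¹ * s * δ) = δ * s := by rw [h2]
  rw [← h3]
  group

/-- The element that sees the sign. -/
theorem sign_elt {γ : G} {e : ℚ} (he : e ^ 2 = 1) (h : 2 * Gm α γ = e) :
    tr ((γ⁻¹ * s * γ) * (γ * s)⁻¹) α = (-e) • α := by
  have h1 : tr (γ⁻¹ * s * γ) α = (-e) • tr (γ * s) α := by
    rw [← tr_tr s γ α, s'_alpha D, s_beta D, h, smul_sub, smul_smul]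
    have h2 : -e * e = -1 := by linear_combination -he
    rw [h2, neg_smul, neg_smul, one_smul]
    abel
  rw [← tr_tr (γ * s)⁻¹ (γ⁻¹ * s * γ) α, h1, map_smul, tr_inv_tr]

theorem fix_iff {γ : G} (hγ : γ * s = s * γ) :
    (∀ u ∈ S, (∀ x, u (s • x) = - u x) → ∀ x, u (γ • x) = u x) ↔ tr γ α = α := by
  constructor
  · intro h
    funext x
    exact h α D.mem (fun x => congrFun D.odd x) x
  · intro h u hu hodd x
    obtain ⟨r, rfl⟩ := D.line u hu (funext hodd)
    rw [Pi.smul_apply, Pi.smul_apply]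
    congr 1
    exact congrFun h x

theorem smul_iff {γ : G} {r : ℚ} (h : tr γ α = r • α) : tr γ α = α ↔ r = 1 := by
  constructor
  · intro h1
    rw [h] at h1
    have h2 : (r - 1) • α = 0 := by rw [sub_smul, h1, one_smul, sub_self]
    have h3 := (smul_eq_zero.1 h2).resolve_right D.ne
    linarith
  · rintro rfl
    rw [h, one_smul]

/-- The space is spanned by the roots. -/
theorem span_eq : Submodule.span ℚ (Set.range fun γ : G => tr γ α) = S := by
  rcases D.span (Submodule.span ℚ (Set.range fun γ : G => tr γ α)) (by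
    intro γ u hu
    change tr γ u ∈ _
    refine Submodule.span_induction ?_ ?_ ?_ ?_ hu
    · rintro _ ⟨δ, rfl⟩
      refine Submodule.subset_span ⟨δ * γ, ?_⟩
      change tr (δ * γ) α = tr γ (tr δ α)
      rw [tr_tr]
    · rw [map_zero]
      exact Submodule.zero_mem _
    · intro a b _ _ ha hb
      rw [map_add]
      exact Submodule.add_mem _ ha hb
    · intro r a _ ha
      rw [map_smul]
      exact Submodule.smul_mem _ _ ha) (by
    rw [Submodule.span_le]
    rintro _ ⟨γ, rfl⟩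
    exact tr_mem D.inv γ D.mem) with h | h
  · exfalso
    apply D.ne
    have h1 : α ∈ Submodule.span ℚ (Set.range fun γ : G => tr γ α) :=
      Submodule.subset_span ⟨1, tr_one α⟩
    rw [h] at h1
    exact (Submodule.mem_bot ℚ).1 h1
  · exact h

theorem killers_iff (a : ConjClasses G → ℚ) : a ∈ killers G (S : Set (X → ℚ)) ↔
    ∑ γ : G, ∑ δ : G, a (ConjClasses.mk γ) * a (ConjClasses.mk δ) * Gm α (γ * δ⁻¹) = 0 := by
  set A : (X → ℚ) →ₗ[ℚ] (X → ℚ) := ∑ γ : G, a (ConjClasses.mk γ) • tr γ with hA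
  have hAu : ∀ u : X → ℚ, A u = ∑ γ : G, a (ConjClasses.mk γ) • tr γ u := by
    intro u
    rw [hA, LinearMap.sum_apply]
    rfl
  have hAx : ∀ (u : X → ℚ) (x : X), A u x = ∑ γ : G, a (ConjClasses.mk γ) * u (γ • x) := by
    intro u x
    rw [hAu, Finset.sum_apply]
    rfl
  have h1 : a ∈ killers G (S : Set (X → ℚ)) ↔ ∀ u ∈ S, A u = 0 := by
    constructor
    · intro h u hu
      funext x
      rw [hAx]
      exact h u hu x
    · intro h u hu x
      have h2 := congrFun (h u hu) x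
      rw [hAx] at h2
      exact h2
  have hcomm : ∀ (δ : G) (u : X → ℚ), A (tr δ u) = tr δ (A u) := by
    intro δ u
    rw [hAu, hAu, map_sum]
    rw [← Equiv.sum_comp (MulAut.conj δ).toEquiv
      (fun γ => tr δ (a (ConjClasses.mk γ) • tr γ u))]
    refine sum_congr rfl fun γ _ => ?_
    have h2 : (MulAut.conj δ).toEquiv γ = δ * γ * δ⁻¹ := rfl
    rw [h2]
    have h3 : ConjClasses.mk (δ * γ * δ⁻¹) = ConjClasses.mk γ := by
      rw [ConjClasses.mk_eq_mk_iff_isConj]
      exact isConj_iff.2 ⟨δ⁻¹, by group⟩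
    rw [h3, map_smul, tr_tr, tr_tr]
    congr 2
    group
  have h4 : (∀ u ∈ S, A u = 0) ↔ A α = 0 := by
    constructor
    · intro h
      exact h α D.mem
    · intro h u hu
      rw [← span_eq D] at hu
      refine Submodule.span_induction ?_ ?_ ?_ ?_ hu
      · rintro _ ⟨δ, rfl⟩
        change A (tr δ α) = 0
        rw [hcomm, h, map_zero]
      · exact map_zero _
      · intro b c _ _ hb hc
        rw [map_add, hb, hc, add_zero]
      · intro r b _ hb
        rw [map_smul, hb, smul_zero]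
  have h5 : A α = 0 ↔ dot X (A α) (A α) = 0 := by
    constructor
    · intro h
      rw [h, map_zero]
    · exact dot_self
  have h6 : dot X (A α) (A α) = (∑ γ : G, ∑ δ : G,
      a (ConjClasses.mk γ) * a (ConjClasses.mk δ) * Gm α (γ * δ⁻¹)) * dot X α α := by
    simp only [hAu, map_sum, LinearMap.sum_apply, map_smul, LinearMap.smul_apply, smul_eq_mul,
      sum_mul, mul_sum]
    refine sum_congr rfl fun γ _ => sum_congr rfl fun δ _ => ?_
    have h7 : dot X (tr δ α) (tr γ α) = Gm α (γ * δ⁻¹) * dot X α α := by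
      rw [dot_tr, tr_tr, dot_Gm' D]
    rw [h7]
    ring
  rw [h1, h4, h5, h6]
  constructor
  · intro h
    exact (mul_eq_zero.1 h).resolve_right (N_ne D)
  · intro h
    rw [h, zero_mul]

end

theorem Gm_eq {G X : Type} [Group G] [Fintype G] [MulAction G X] [Fintype X] {s : G}
    {S S' : Submodule ℚ (X → ℚ)} {α α' : X → ℚ} (D : RD s S α) (D' : RD s S' α')
    (h : ∀ γ : G, γ * s = s * γ → (tr γ α = α ↔ tr γ α' = α')) (γ : G) :
    Gm α γ = Gm α' γ := by
  have hs : ∀ e : ℚ, e = 1 ∨ e = -1 → e ^ 2 = 1 := by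
    rintro e (rfl | rfl) <;> norm_num
  have hsq : ∀ e : ℚ, e ^ 2 = 1 → e = 1 ∨ e = -1 := by
    intro e he
    rwa [sq, mul_self_eq_one_iff] at he
  by_cases h1 : γ⁻¹ * s * γ = s
  · have h2 := (one_iff D γ).2 h1
    have h2' := (one_iff D' γ).2 h1
    have h3 := eq_of_sq D h2
    have h3' := eq_of_sq D' h2'
    have hc := comm_of_smul D h2 h3
    have h4 := h γ hc
    rw [smul_iff D h3, smul_iff D' h3'] at h4
    rcases hsq _ h2 with h5 | h5
    · rw [h5, h4.1 h5]
    · rcases hsq _ h2' with h5' | h5'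
      · exfalso
        have := h4.2 h5'
        rw [h5] at this
        norm_num at this
      · rw [h5, h5']
  · by_cases h2 : s * (γ⁻¹ * s * γ) = (γ⁻¹ * s * γ) * s
    · have h3 := (comm_iff D γ).1 h2
      have h3' := (comm_iff D' γ).1 h2
      rcases h3 with h3 | h3
      · rcases h3' with h3' | h3'
        · rw [h3, h3']
        · exact absurd ((one_iff D' γ).1 h3') h1
      · exact absurd ((one_iff D γ).1 h3) h1
    · have g : ∃ e : ℚ, (e = 1 ∨ e = -1) ∧ 2 * Gm α γ = e := by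
        rcases Gm_cases D γ with h3 | h3 | h3 | h3
        · exact absurd ((comm_iff D γ).2 (Or.inl h3)) h2
        · exact absurd ((comm_iff D γ).2 (Or.inr h3)) h2
        · exact ⟨1, Or.inl rfl, h3⟩
        · exact ⟨-1, Or.inr rfl, h3⟩
      have g' : ∃ e : ℚ, (e = 1 ∨ e = -1) ∧ 2 * Gm α' γ = e := by
        rcases Gm_cases D' γ with h3 | h3 | h3 | h3
        · exact absurd ((comm_iff D' γ).2 (Or.inl h3)) h2
        · exact absurd ((comm_iff D' γ).2 (Or.inr h3)) h2
        · exact ⟨1, Or.inl rfl, h3⟩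
        · exact ⟨-1, Or.inr rfl, h3⟩
      obtain ⟨e, he, hg⟩ := g
      obtain ⟨e', he', hg'⟩ := g'
      have k := sign_elt D (hs e he) hg
      have k' := sign_elt D' (hs e' he') hg'
      have hc := comm_of_smul D (r := -e) (by rw [neg_sq]; exact hs e he) k
      have h4 := h _ hc
      rw [smul_iff D k, smul_iff D' k'] at h4
      have h5 : e = e' := by
        rcases he with rfl | rfl
        · rcases he' with rfl | rfl
          · rfl
          · exfalso
            have := h4.2 (by norm_num)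
            norm_num at this
        · rcases he' with rfl | rfl
          · exfalso
            have := h4.1 (by norm_num)
            norm_num at this
          · rfl
      have h6 : 2 * Gm α γ = 2 * Gm α' γ := by rw [hg, hg', h5]
      linarith

theorem refl : Pool.Agent.Y1.KN.P_refl := by
  intro G X _ _ _ _ c s S S' hS hS' hf hf' hss hr hr' hcond
  obtain ⟨α, hα, hα0, hαo, hαl⟩ := hr
  obtain ⟨α', hα', hα0', hαo', hαl'⟩ := hr'
  have D : RD s S α := by
    refine ⟨hS.2.1, hss, hα, hα0, funext hαo, ?_, hf, hS.2.2.2⟩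
    intro u hu ho
    exact hαl u hu fun x => congrFun ho x
  have D' : RD s S' α' := by
    refine ⟨hS'.2.1, hss, hα', hα0', funext hαo', ?_, hf', hS'.2.2.2⟩
    intro u hu ho
    exact hαl' u hu fun x => congrFun ho x
  have h : ∀ γ : G, γ * s = s * γ → (tr γ α = α ↔ tr γ α' = α') := by
    intro γ hγ
    rw [← fix_iff D hγ, ← fix_iff D' hγ]
    exact hcond γ hγ
  have hG := Gm_eq D D' h
  ext a
  rw [killers_iff D, killers_iff D']
  simp only [hG]

end Pool.Agent.Y839.KN
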